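import Pool.Agent.K6.H26.PT.Pat
import Pool.Agent.K6.H26.QW.AvgShort

set_option autoImplicit false

/-! # Patterns of totients and equally spaced prime-free intervals between consecutive squares -/

namespace Pool.Agent.K6.H26.PF

open Finset Filter
open Pool.Agent.H256R2.SC (ff)
open Pool.Agent.H378R2.QG (w0)
open Pool.Agent.K6.H26.QW
open Pool.Agent.K6.H26.PT
open scoped Classical

/-- the totients of `n + j`, `n = Q s x + h` -/
theorem tot_part2 {m J₀ t Q l x s : ℕ} {y ε α' : ℝ} (hm : 1 ≤ m) (htm : m + J₀ ≤ t)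
    (hQt : ∀ p : ℕ, p.Prime → p ≤ t → p ∣ Q) (hy : 1 < y)
    (hw : (((m + Q * l : ℕ) : ℝ) + J₀) < w0 y)
    (hcl : ∀ p : ℕ, p.Prime → (p : ℝ) ≤ y → (p : ℤ) ∣ (x : ℤ) - (cc false 1 y p : ℤ))
    (hpick : ∀ j : ℕ, j ≤ J₀ → tail t (m + j + Q * (l + s)) ≤ ε)
    (hbig : ∀ j : ℕ, j ≤ J₀ →
      Real.log (((Q * s * x + (m + Q * l) + j : ℕ) : ℝ)) / (y * Real.log y) ≤ α') :
    ∀ j : ℕ, j ≤ J₀ → |rho (Q * s * x + (m + Q * l) + j) - rho (m + j)| ≤ ε + α' := by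
  intro j hj
  have e1 : Q * s * x + (m + Q * l) + j = Q * (s * x + l) + (m + j) := by ring
  have hpos : 0 < Q * s * x + (m + Q * l) + j := by omega
  refine (rho_close t _ (m + j) hpos (by omega) ?_ ?_).trans ?_
  · intro p hp hpt
    rw [e1]
    exact Nat.dvd_add_right (Dvd.dvd.mul_right (hQt p hp hpt) _)
  · intro p hp hpd
    exact (Nat.le_of_dvd (by omega) hpd).trans (by omega)
  · refine (tail_le t _ (m + j + Q * (l + s)) y hpos (by omega) hy ?_).trans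
      (add_le_add (hpick j hj) (hbig j hj))
    intro p hp hpt hpy hpd
    have h1 := hcl p hp hpy
    unfold cc at h1
    by_cases hpw : (p : ℝ) ≤ w0 y
    · rw [if_pos hpw] at h1
      simp only [Bool.false_eq_true, if_false] at h1
      have h2 : (p : ℤ) ∣ ((Q * s * x + (m + Q * l) + j : ℕ) : ℤ) := by exact_mod_cast hpd
      have h3 : (p : ℤ) ∣ ((m + j + Q * (l + s) : ℕ) : ℤ) := by
        have h4 := dvd_sub h2 (Dvd.dvd.mul_left h1 ((Q : ℤ) * s))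
        have e : ((Q * s * x + (m + Q * l) + j : ℕ) : ℤ) - (Q : ℤ) * s * ((x : ℤ) - ((1 : ℕ) : ℤ)) =
            ((m + j + Q * (l + s) : ℕ) : ℤ) := by push_cast; ring
        rwa [e] at h4
      exact_mod_cast h3
    · exfalso
      rw [if_neg hpw] at h1
      simp only [Bool.false_eq_true, if_false] at h1
      have h1' : (p : ℤ) ∣ (x : ℤ) := by simpa using h1
      have h1'' : p ∣ x := by exact_mod_cast h1'
      have h2 : p ∣ m + Q * l + j := by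
        have e2 : Q * s * x + (m + Q * l) + j = Q * s * x + (m + Q * l + j) := by ring
        rw [e2] at hpd
        exact (Nat.dvd_add_right (Dvd.dvd.mul_left h1'' (Q * s))).1 hpd
      have h3 := Nat.le_of_dvd (by omega) h2
      have h4 : (p : ℝ) ≤ ((m + Q * l : ℕ) : ℝ) + J₀ := by
        have : p ≤ m + Q * l + J₀ := by omega
        exact_mod_cast this
      linarith [not_le.1 hpw]

theorem fan_sum : ∃ C : ℝ, 0 < C ∧ ∀ Q N H' H : ℕ, 0 < Q → H' + 1 ≤ N → H' ≤ H → 1 ≤ H →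
    N + H' ≤ 2 * H ^ 2 →
    ∑ b ∈ Finset.Icc (-(H' : ℤ)) H', GG ((Q : ℤ) * ((N : ℤ) + b)) ^ 2 ≤
      C * ((Q : ℝ) / (Nat.totient Q : ℝ)) ^ 2 * H := by
  obtain ⟨C, hC, havg⟩ := avg_short
  refine ⟨C, hC, fun Q N H' H hQ h1N hHH hH1 hNH => ?_⟩
  have hinj : Set.InjOn (fun b : ℤ => ((N : ℤ) + b).natAbs) (Finset.Icc (-(H' : ℤ)) H' : Set ℤ) := by
    intro b hb b' hb' e
    have g := Finset.mem_Icc.1 (Finset.mem_coe.1 hb)
    have g' := Finset.mem_Icc.1 (Finset.mem_coe.1 hb')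
    have e0 : ((N : ℤ) + b).natAbs = ((N : ℤ) + b').natAbs := e
    omega
  have h1 : ∑ b ∈ Finset.Icc (-(H' : ℤ)) H', GG ((Q : ℤ) * ((N : ℤ) + b)) ^ 2 ≤
      ∑ b ∈ Finset.Icc (-(H' : ℤ)) H',
      ((Q : ℝ) / (Nat.totient Q : ℝ)) ^ 2 * (((((N : ℤ) + b).natAbs : ℕ) : ℝ) /
        (Nat.totient (((N : ℤ) + b).natAbs) : ℝ)) ^ 2 := by
    apply Finset.sum_le_sum
    intro b hb
    have g := Finset.mem_Icc.1 hb
    have h2 := ratio_mul (m := Q) (s := (N : ℤ) + b) hQ (by omega)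
    have h3 : GG ((Q : ℤ) * ((N : ℤ) + b)) =
        (((Q * ((N : ℤ) + b).natAbs : ℕ) : ℝ) /
          (Nat.totient (Q * ((N : ℤ) + b).natAbs) : ℝ)) := by
      unfold GG
      rw [Int.natAbs_mul, Int.natAbs_natCast]
    rw [← h3] at h2
    have h4 : 0 ≤ GG ((Q : ℤ) * ((N : ℤ) + b)) := by unfold GG; positivity
    have h5 := pow_le_pow_left₀ h4 h2 2
    rw [mul_pow] at h5
    exact h5
  refine h1.trans ?_
  rw [← Finset.mul_sum]
  have h6 : ∑ b ∈ Finset.Icc (-(H' : ℤ)) H', (((((N : ℤ) + b).natAbs : ℕ) : ℝ) /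
        (Nat.totient (((N : ℤ) + b).natAbs) : ℝ)) ^ 2 ≤ C * H := by
    rw [← Finset.sum_image (s := Finset.Icc (-(H' : ℤ)) H') (g := fun b : ℤ => ((N : ℤ) + b).natAbs)
      (f := fun n : ℕ => ((n : ℝ) / (Nat.totient n : ℝ)) ^ 2) (by simpa using hinj)]
    refine le_trans ?_ (havg (N - H') (N + H') H (by omega) hH1 (by omega) hNH)
    apply Finset.sum_le_sum_of_subset_of_nonneg
    · intro n hn'
      rw [mem_image] at hn'
      obtain ⟨b, hb, rfl⟩ := hn'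
      have g := Finset.mem_Icc.1 hb
      rw [Finset.mem_Icc]
      omega
    · intro _ _ _
      positivity
  have h7 := mul_le_mul_of_nonneg_left h6 (show (0 : ℝ) ≤ ((Q : ℝ) / (Nat.totient Q : ℝ)) ^ 2 by positivity)
  linarith

theorem ev_pow {Z : ℝ} (hZ : 0 < Real.log Z) (hZ1 : 0 ≤ Z) :
    ((Real.log Z) ^ (1 / 60 : ℝ)) ^ 3 ≤ 2 * (Real.log (Real.sqrt Z)) ^ (1 / 20 : ℝ) := by
  have h1 : ((Real.log Z) ^ (1 / 60 : ℝ)) ^ 3 = (Real.log Z) ^ (1 / 20 : ℝ) := by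
    rw [← Real.rpow_natCast, ← Real.rpow_mul hZ.le]
    norm_num
  rw [h1, Real.log_sqrt hZ1, Real.div_rpow hZ.le (by norm_num)]
  have h2 : (2 : ℝ) ^ (1 / 20 : ℝ) ≤ 2 := by
    have := Real.rpow_le_rpow_of_exponent_le (show (1 : ℝ) ≤ 2 by norm_num)
      (show (1 / 20 : ℝ) ≤ 1 by norm_num)
    rwa [Real.rpow_one] at this
  have h3 : (0 : ℝ) < 2 ^ (1 / 20 : ℝ) := by positivity
  have h4 : 0 ≤ (Real.log Z) ^ (1 / 20 : ℝ) := by positivity
  rw [mul_div_assoc', le_div_iff₀ h3]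
  nlinarith

end Pool.Agent.K6.H26.PF
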