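import Pool.Agent.K6.H26.PF.Fan

set_option autoImplicit false

/-! # Patterns of totients and equally spaced prime-free intervals: the theorem -/

namespace Pool.Agent.K6.H26.PF

open Finset Filter
open Pool.Agent.H256R2.SC (ff)
open Pool.Agent.H378R2.QG (w0)
open Pool.Agent.K6.H26.QW
open Pool.Agent.K6.H26.PT
open scoped Classical

theorem size_one {Q E₁ h E G m : ℝ} (hQ : 0 ≤ Q) (hE₁ : 0 ≤ E₁) (hh : 0 ≤ h) (hE1 : 1 ≤ E)
    (hE : E = 4 * Q + 8 * E₁ + 8) (hG : 1 ≤ G) (hm : 0 ≤ m) (hmG : m ≤ G) (hmh : m * h ≤ m * (E₁ * G)) :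
    4 * Q * m ^ 2 + 8 * m * h + 8 * G ≤ 2 * (E * G) ^ 2 := by
  have h2 : m ^ 2 ≤ G ^ 2 := pow_le_pow_left₀ hm hmG 2
  have h3 : m * (E₁ * G) ≤ G * (E₁ * G) := mul_le_mul_of_nonneg_right hmG (by positivity)
  have h4 : G ≤ G ^ 2 := le_self_pow₀ hG (by norm_num)
  have h6 : Q * m ^ 2 ≤ Q * G ^ 2 := mul_le_mul_of_nonneg_left h2 hQ
  have h7 : E ≤ E ^ 2 := le_self_pow₀ hE1 (by norm_num)
  have h8 : E * G ^ 2 ≤ E ^ 2 * G ^ 2 := mul_le_mul_of_nonneg_right h7 (by positivity)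
  have h9 : (0 : ℝ) ≤ E ^ 2 * G ^ 2 := by positivity
  have e1 : E * G ^ 2 = 4 * (Q * G ^ 2) + 8 * (G * (E₁ * G)) + 8 * G ^ 2 := by rw [hE]; ring
  have e2 : 2 * (E * G) ^ 2 = 2 * (E ^ 2 * G ^ 2) := by ring
  have e3 : 4 * Q * m ^ 2 + 8 * m * h + 8 * G = 4 * (Q * m ^ 2) + 8 * (m * h) + 8 * G := by ring
  rw [e2, e3]
  linarith

theorem size_two {Q E₁ h E G m w : ℝ} (hQ : 1 ≤ Q) (hE₁ : 0 ≤ E₁) (hh : 0 ≤ h)
    (hE : E = 4 * Q + 8 * E₁ + 8) (hG : 1 ≤ G) (hm : 0 ≤ m) (hmw : m ≤ w) (hGw : G ≤ w)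
    (hmh : m * h ≤ m * (E₁ * G)) (hQQ : Q ≤ Q ^ 2) :
    Q * (4 * Q * m ^ 2 + 8 * m * h + 8 * G) ≤ Q ^ 2 * E * w ^ 2 := by
  have hw : 1 ≤ w := hG.trans hGw
  have h2 : m ^ 2 ≤ w ^ 2 := pow_le_pow_left₀ hm hmw 2
  have h3 : m * (E₁ * G) ≤ w * (E₁ * w) :=
    mul_le_mul hmw (mul_le_mul_of_nonneg_left hGw hE₁) (by positivity) (by linarith)
  have h4 : G ≤ w ^ 2 := hGw.trans (le_self_pow₀ hw (by norm_num))
  have h7 : Q * m ^ 2 ≤ Q * w ^ 2 := mul_le_mul_of_nonneg_left h2 (by linarith)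
  have e1 : E * w ^ 2 = 4 * (Q * w ^ 2) + 8 * (w * (E₁ * w)) + 8 * w ^ 2 := by rw [hE]; ring
  have e3 : 4 * Q * m ^ 2 + 8 * m * h + 8 * G = 4 * (Q * m ^ 2) + 8 * (m * h) + 8 * G := by ring
  have h6 : 4 * Q * m ^ 2 + 8 * m * h + 8 * G ≤ E * w ^ 2 := by
    rw [e3]
    linarith
  have h8 : Q * (4 * Q * m ^ 2 + 8 * m * h + 8 * G) ≤ Q * (E * w ^ 2) :=
    mul_le_mul_of_nonneg_left h6 (by linarith)
  have hE0 : 0 ≤ E := by rw [hE]; linarith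
  have h9 : Q * (E * w ^ 2) ≤ Q ^ 2 * (E * w ^ 2) := mul_le_mul_of_nonneg_right hQQ (by positivity)
  have e4 : Q ^ 2 * E * w ^ 2 = Q ^ 2 * (E * w ^ 2) := by ring
  rw [e4]
  linarith

theorem fan_main (D m₀ J₀ : ℕ) (hD : 1 ≤ D) (hm₀ : 1 ≤ m₀) (ε α : ℝ) (hε : 0 < ε) (hα : 1 ≤ α) :
    ∃ c : ℝ, 0 < c ∧ ∃ Z₀ : ℝ, ∀ Z : ℝ, Z₀ ≤ Z → ∀ M : ℝ, Z ≤ M → M ≤ Z ^ α →
    ∀ (J m : ℕ) (K : ℝ), 1 ≤ J → 1 ≤ m → Real.log Z ≤ K → (J : ℝ) * m * K ≤ c * ff Z →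
    ∃ k : ℕ, M < k ∧ (k : ℝ) ≤ M + Z ∧ k ≡ m₀ [MOD D] ∧
      (∀ j : ℕ, j ≤ J₀ → |rho (k + j) - rho (m₀ + j)| < ε) ∧
      ∀ i j : ℤ, |i| ≤ J → 0 ≤ j → j ≤ 4 * m → ∀ q : ℕ, q.Prime →
        K < |(q : ℝ) - ((2 * (k : ℝ) + i) ^ 2 + j * ((k : ℝ) / m))| := by
  obtain ⟨c₀, hc₀, Z₁, hmain⟩ := main_cls false
  obtain ⟨C, hC, hsumC⟩ := fan_sum
  -- the modulus
  obtain ⟨t, ht⟩ : ∃ t : ℕ, t = D + m₀ + J₀ + ⌈4 * ((J₀ : ℝ) + 1) / ε⌉₊ := ⟨_, rfl⟩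
  have ht1 : 1 ≤ t := by omega
  have hte : ((J₀ : ℝ) + 1) / t ≤ ε / 4 := by
    have h1 : 4 * ((J₀ : ℝ) + 1) / ε ≤ t := by
      refine (Nat.le_ceil _).trans ?_
      rw [ht]
      push_cast
      have : (0 : ℝ) ≤ D + m₀ + J₀ := by positivity
      linarith
    have ht0 : (0 : ℝ) < t := by exact_mod_cast ht1
    rw [div_le_iff₀ hε] at h1
    rw [div_le_iff₀ ht0]
    linarith
  obtain ⟨Q, hQ⟩ : ∃ Q : ℕ, Q = D * Nat.factorial t := ⟨_, rfl⟩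
  have hQ0 : 0 < Q := by rw [hQ]; exact Nat.mul_pos hD (Nat.factorial_pos t)
  have hQt : ∀ p : ℕ, p.Prime → p ≤ t → p ∣ Q := by
    intro p hp hpt
    rw [hQ]
    exact Dvd.dvd.mul_left (Nat.dvd_factorial hp.pos hpt) _
  have hcop : ∀ p : ℕ, p.Prime → t < p → Nat.Coprime Q p := by
    intro p hp hpt
    rw [Nat.coprime_comm, hp.coprime_iff_not_dvd, hQ]
    intro hd
    rcases hp.dvd_mul.1 hd with h | h
    · have := Nat.le_of_dvd hD h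
      omega
    · have := (hp.dvd_factorial).1 h
      omega
  obtain ⟨B₀, hB₀, hpick⟩ := pick Q t m₀ J₀ ht1 hm₀ hcop (ε / 4) (by positivity)
  -- the constants
  obtain ⟨E₁, hE₁⟩ : ∃ E₁ : ℕ, E₁ = m₀ + Q * (2 * B₀ + 3) := ⟨_, rfl⟩
  obtain ⟨E, hE⟩ : ∃ E : ℕ, E = 4 * Q + 8 * E₁ + 8 := ⟨_, rfl⟩
  have hQ1 : (1 : ℝ) ≤ Q := by exact_mod_cast hQ0
  have hE1 : (1 : ℝ) ≤ E := by exact_mod_cast (by omega : 1 ≤ E)
  obtain ⟨g, hg⟩ : ∃ g : ℝ, g = (Q : ℝ) / (Nat.totient Q : ℝ) := ⟨_, rfl⟩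
  have hg0 : 0 < g := by
    rw [hg]
    have : (0 : ℝ) < (Nat.totient Q : ℝ) := by exact_mod_cast Nat.totient_pos.2 hQ0
    positivity
  obtain ⟨F, hF⟩ : ∃ F : ℝ, F = 4 * ((Q : ℝ) ^ 2 * E + J₀) := ⟨_, rfl⟩
  have hQE : (Q : ℝ) ^ 2 * E ≤ F / 4 := by rw [hF]; linarith [Nat.cast_nonneg (α := ℝ) J₀]
  have hQ2 : (1 : ℝ) ≤ (Q : ℝ) ^ 2 := one_le_pow₀ hQ1
  have hQQ : (Q : ℝ) ≤ (Q : ℝ) ^ 2 := le_self_pow₀ hQ1 (by norm_num)
  have hEF : (E : ℝ) ≤ F / 4 := by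
    refine le_trans ?_ hQE
    exact le_mul_of_one_le_left (by linarith) hQ2
  have hQEF : (Q : ℝ) * E ≤ F / 4 := by
    refine le_trans ?_ hQE
    exact mul_le_mul_of_nonneg_right hQQ (by linarith)
  have hQF : (Q : ℝ) ≤ F / 4 := (le_mul_of_one_le_right (by linarith) hE1).trans hQEF
  have hE₁E : (8 * E₁ + 8 : ℝ) ≤ E := by
    have : 8 * E₁ + 8 ≤ E := by omega
    exact_mod_cast this
  have hJF : (J₀ : ℝ) ≤ F := by
    rw [hF]
    have : (0 : ℝ) ≤ (Q : ℝ) ^ 2 * E := by positivity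
    have h2 : (0 : ℝ) ≤ J₀ := by positivity
    linarith
  have hF0 : 0 < F := by linarith
  obtain ⟨c, hc⟩ : ∃ c : ℝ, c = c₀ / (48 * C * g ^ 2 * E) := ⟨_, rfl⟩
  have hc0 : 0 < c := by rw [hc]; positivity
  obtain ⟨Z₂, hev⟩ := ev_size2 c hc0
  obtain ⟨Z₃, hsqrt⟩ := ev_sqrt
  obtain ⟨Z₄, hevw⟩ := ev_w F c hF0 hc0
  obtain ⟨Z₅, hbig⟩ := ev_big F α (ε / 4) hF0 hα (by positivity)
  refine ⟨c, hc0, max (max Z₁ 1 ^ 2) (max (max Z₂ Z₃) (max Z₄ Z₅)),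
    fun Z hZ M hM hMα J m K hJ hm hK hJmK => ?_⟩
  obtain ⟨e1, e2, e3, e4, e5, e6, e7⟩ := hev Z
    (((le_max_left _ _).trans ((le_max_left _ _).trans (le_max_right _ _))).trans hZ)
  obtain ⟨s1, s2⟩ := hsqrt Z
    (((le_max_right _ _).trans ((le_max_left _ _).trans (le_max_right _ _))).trans hZ)
  have hevw' := hevw Z
    (((le_max_left _ _).trans ((le_max_right _ _).trans (le_max_right _ _))).trans hZ)
    ((J : ℝ) * m) K (by positivity) hK hJmK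
  obtain ⟨b1, b2, b3, b4, b5, b6⟩ := hbig Z
    (((le_max_right _ _).trans ((le_max_right _ _).trans (le_max_right _ _))).trans hZ)
  have b7 := ev_pow e1 (by linarith)
  obtain ⟨w, hw⟩ : ∃ w : ℝ, w = (Real.log Z) ^ (1 / 60 : ℝ) := ⟨_, rfl⟩
  obtain ⟨Y, hY⟩ : ∃ Y : ℝ, Y = Real.sqrt Z := ⟨_, rfl⟩
  rw [← hw] at e3 e4 e5 e6 e7 b1 b2 b4 b7
  rw [← hY] at e5 e6 e7 s2 hevw' b3 b4 b5 b6 b7
  have hYZ : Y * Y = Z := by rw [hY]; exact Real.mul_self_sqrt (by linarith)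
  have hY1 : max Z₁ 1 ≤ Y := by
    rw [hY]
    exact Real.le_sqrt_of_sq_le ((le_max_left _ _).trans hZ)
  have hYone : 1 ≤ Y := (le_max_right _ _).trans hY1
  have hYleZ : Y ≤ Z := by
    rw [← hYZ]
    exact le_mul_of_one_le_right (by linarith) hYone
  have hlogY : Real.log Y ≤ Real.log Z := Real.log_le_log (by linarith) hYleZ
  have hlogZY : Real.log Z = 2 * Real.log Y := by
    rw [← hYZ, Real.log_mul (by linarith) (by linarith)]; ring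
  have hlogY1 : Real.log Z ≤ 2 * Y := by
    rw [hlogZY]
    have := Real.log_le_sub_one_of_pos (show 0 < Y by linarith)
    linarith
  have hJ1 : (1 : ℝ) ≤ J := by exact_mod_cast hJ
  have hm1 : (1 : ℝ) ≤ m := by exact_mod_cast hm
  have hK0 : 0 < K := by linarith
  obtain ⟨G, hG⟩ : ∃ G : ℝ, G = (J : ℝ) * m := ⟨_, rfl⟩
  rw [← hG] at hJmK hevw'
  have hG1 : 1 ≤ G := by rw [hG]; exact one_le_mul_of_one_le_of_one_le hJ1 hm1
  have hGw : G ≤ w := by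
    have h1 : G * Real.log Z ≤ w * Real.log Z :=
      (mul_le_mul_of_nonneg_left hK (by positivity)).trans (hJmK.trans e3)
    exact le_of_mul_le_mul_right h1 e1
  have hJG : (J : ℝ) ≤ G := by rw [hG]; exact le_mul_of_one_le_right (by linarith) hm1
  have hmG : (m : ℝ) ≤ G := by rw [hG]; exact le_mul_of_one_le_left (by linarith) hJ1
  have hmw : (m : ℝ) ≤ w := hmG.trans hGw
  have hJw : (J : ℝ) ≤ w := hJG.trans hGw
  have hw4 : 4 * (F / 4) ≤ w := by linarith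
  have hF1 : 1 ≤ F / 4 := hE1.trans hEF
  have hw4' : 4 ≤ w := by linarith
  -- the shift
  obtain ⟨k₁, hk1, hk2, hk3⟩ := hpick (B₀ + J + m) (by omega)
  obtain ⟨l, rfl⟩ : ∃ l : ℕ, k₁ = l + m := ⟨k₁ - m, by omega⟩
  obtain ⟨h, hh⟩ : ∃ h : ℕ, h = m₀ + Q * l := ⟨_, rfl⟩
  have hQl : l ≤ Q * l := Nat.le_mul_of_pos_left l hQ0
  have hJh : J + 1 ≤ h := by omega
  have hhG : (h : ℝ) ≤ E₁ * G := by
    have h1 : (l : ℝ) ≤ 2 * B₀ + 2 * J + m := by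
      have : l ≤ 2 * B₀ + 2 * J + m := by omega
      exact_mod_cast this
    have h2 : (l : ℝ) ≤ (2 * B₀ + 3) * G := by
      have h3 : (B₀ : ℝ) ≤ B₀ * G := le_mul_of_one_le_right (by positivity) hG1
      linarith
    have h4 : (Q : ℝ) * l ≤ Q * ((2 * B₀ + 3) * G) := mul_le_mul_of_nonneg_left h2 (by positivity)
    have h5 : (m₀ : ℝ) ≤ m₀ * G := le_mul_of_one_le_right (by positivity) hG1
    rw [hh, hE₁]
    push_cast
    have e : ((m₀ : ℝ) + Q * (2 * B₀ + 3)) * G = m₀ * G + Q * ((2 * B₀ + 3) * G) := by ring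
    linarith
  obtain ⟨H', hH'⟩ : ∃ H' : ℕ, H' = 8 * (J * m) := ⟨_, rfl⟩
  obtain ⟨H, hH⟩ : ∃ H : ℕ, H = E * (J * m) := ⟨_, rfl⟩
  obtain ⟨N, hN⟩ : ∃ N : ℕ, N = 4 * m * (Q * m + 2 * h) := ⟨_, rfl⟩
  have hJm1 : 1 ≤ J * m := Nat.mul_pos hJ hm
  have hHH : H' ≤ H := by
    rw [hH', hH]
    exact Nat.mul_le_mul_right _ (by omega)
  have hH1 : 1 ≤ H := by
    have : 1 ≤ H' := by omega
    omega
  have hN1 : H' + 1 ≤ N := by
    have h1 : m * (J + 1) ≤ m * h := Nat.mul_le_mul_left _ hJh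
    have h2 : N = 4 * (Q * (m * m)) + 8 * (m * h) := by rw [hN]; ring
    have h3 : m * (J + 1) = J * m + m := by ring
    omega
  have hHR : (H : ℝ) = E * G := by rw [hH, hG]; push_cast; ring
  have hH'R : (H' : ℝ) = 8 * G := by rw [hH', hG]; push_cast; ring
  have hNR : (N : ℝ) = 4 * Q * (m : ℝ) ^ 2 + 8 * m * h := by rw [hN]; push_cast; ring
  have hmh : (m : ℝ) * h ≤ m * (E₁ * G) := mul_le_mul_of_nonneg_left hhG (by positivity)
  have hNH2 : N + H' ≤ 2 * H ^ 2 := by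
    have h1 : ((N + H' : ℕ) : ℝ) ≤ ((2 * H ^ 2 : ℕ) : ℝ) := by
      push_cast
      rw [hHR, hH'R, hNR]
      exact size_one (by positivity) (by positivity) (by positivity) hE1 (by rw [hE]; push_cast; ring)
        hG1 (by positivity) hmG hmh
    exact_mod_cast h1
  -- sizes in terms of `w`
  have hE₁w : (E₁ : ℝ) ≤ w / 32 := by linarith
  have hhw : (h : ℝ) ≤ w ^ 2 / 32 := by
    refine hhG.trans ?_
    have : (E₁ : ℝ) * G ≤ w / 32 * w := mul_le_mul hE₁w hGw (by linarith) (by linarith)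
    have e : w / 32 * w = w ^ 2 / 32 := by ring
    linarith
  have hNw : (Q : ℝ) * (N + H') ≤ w ^ 3 / 2 := by
    rw [hNR, hH'R]
    have h1 : (Q : ℝ) * (4 * Q * (m : ℝ) ^ 2 + 8 * m * h + 8 * G) ≤ (Q : ℝ) ^ 2 * E * w ^ 2 :=
      size_two hQ1 (by positivity) (by positivity) (by rw [hE]; push_cast; ring) hG1 (by positivity)
        hmw hGw hmh hQQ
    have h2 : (Q : ℝ) ^ 2 * E * w ^ 2 ≤ (F / 4) * w ^ 2 := mul_le_mul_of_nonneg_right hQE (by positivity)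
    have h3 : (F / 4) * w ^ 2 ≤ (w / 4) * w ^ 2 := mul_le_mul_of_nonneg_right (by linarith) (by positivity)
    have h4 : (0 : ℝ) ≤ w ^ 3 := by positivity
    have h5 : (w / 4) * w ^ 2 = w ^ 3 / 4 := by ring
    linarith
  have hw3 : w ^ 3 / 2 ≤ (Real.log Y) ^ (1 / 20 : ℝ) := by linarith
  have hw3' : w ^ 3 / 2 ≤ Real.log Y := by
    have h1 : 4 * w ^ 3 ≤ w * w ^ 3 := mul_le_mul_of_nonneg_right hw4' (by positivity)
    have h2 : w * w ^ 3 = w ^ 4 := by ring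
    have h3 : (0 : ℝ) ≤ w ^ 3 := by positivity
    linarith
  obtain ⟨T, hT⟩ : ∃ T : Finset (ℤ × ℤ), T = (Finset.Icc (-(H' : ℤ)) H').image
      (fun b => ((4 * ((Q : ℤ) * m) ^ 2, (Q : ℤ) * (8 * m * h + b)) : ℤ × ℤ)) := ⟨_, rfl⟩
  have hss : ∀ b : ℤ, ss 1 ((4 * ((Q : ℤ) * m) ^ 2, (Q : ℤ) * (8 * m * h + b)) : ℤ × ℤ) =
      (Q : ℤ) * ((N : ℤ) + b) := by
    intro b
    unfold ss
    rw [hN]
    push_cast
    ring
  have hQZ : (0 : ℤ) < Q := by exact_mod_cast hQ0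
  have hmZ : (0 : ℤ) < m := by exact_mod_cast hm
  have hT1 : ∀ t ∈ T, 0 ≤ t.1 ∧ (t.1 : ℝ) ≤ (Real.log Y) ^ (1 / 20 : ℝ) ∧
      |(t.2 : ℝ)| ≤ (Real.log Y) ^ (1 / 20 : ℝ) ∧ (t.1 = 0 → 0 < t.2) := by
    intro t' ht'
    rw [hT, mem_image] at ht'
    obtain ⟨b, hb, rfl⟩ := ht'
    have hb' := Finset.mem_Icc.1 hb
    have hbR : |(b : ℝ)| ≤ H' := by
      have : |b| ≤ (H' : ℤ) := abs_le.2 hb'
      exact_mod_cast this
    simp only
    refine ⟨by positivity, ?_, ?_, fun h0 => ?_⟩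
    · refine le_trans ?_ (hNw.trans hw3)
      push_cast
      rw [hNR]
      have h1 : (0 : ℝ) ≤ Q * (8 * m * h + H') := by positivity
      have e : (Q : ℝ) * (4 * Q * (m : ℝ) ^ 2 + 8 * m * h + H') =
        4 * ((Q : ℝ) * m) ^ 2 + Q * (8 * m * h + H') := by ring
      linarith
    · refine le_trans ?_ (hNw.trans hw3)
      push_cast
      rw [abs_mul, abs_of_nonneg (by positivity : (0 : ℝ) ≤ (Q : ℝ))]
      apply mul_le_mul_of_nonneg_left _ (by positivity)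
      have h1 : |8 * (m : ℝ) * h + b| ≤ |8 * (m : ℝ) * h| + |(b : ℝ)| := abs_add_le _ _
      rw [abs_of_nonneg (by positivity : (0 : ℝ) ≤ 8 * (m : ℝ) * h)] at h1
      rw [hNR]
      have h2 : (0 : ℝ) ≤ 4 * Q * (m : ℝ) ^ 2 := by positivity
      linarith
    · exfalso
      have : (0 : ℤ) < 4 * ((Q : ℤ) * m) ^ 2 := by positivity
      omega
  have hT2 : ∀ t ∈ T, ss 1 t ≠ 0 ∧ |(ss 1 t : ℝ)| ≤ Real.log Y := by
    intro t' ht'
    rw [hT, mem_image] at ht'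
    obtain ⟨b, hb, rfl⟩ := ht'
    have hb' := Finset.mem_Icc.1 hb
    rw [hss b]
    have hNb : 0 < (N : ℤ) + b := by omega
    have hpos : 0 < (Q : ℤ) * ((N : ℤ) + b) := mul_pos hQZ hNb
    refine ⟨hpos.ne', ?_⟩
    rw [abs_of_nonneg (by exact_mod_cast hpos.le)]
    refine le_trans ?_ (hNw.trans hw3')
    have h1 : (Q : ℤ) * ((N : ℤ) + b) ≤ Q * (N + H') := mul_le_mul_of_nonneg_left (by omega) hQZ.le
    exact_mod_cast h1
  have hne : T.Nonempty := by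
    rw [hT, Finset.image_nonempty]
    exact ⟨0, by rw [Finset.mem_Icc]; omega⟩
  have hinj : Set.InjOn (fun b : ℤ => ((4 * ((Q : ℤ) * m) ^ 2, (Q : ℤ) * (8 * m * h + b)) : ℤ × ℤ))
      (Finset.Icc (-(H' : ℤ)) H' : Set ℤ) := by
    intro b _ b' _ e
    have e2 := congrArg Prod.snd e
    simp only at e2
    have e3 := mul_left_cancel₀ hQZ.ne' e2
    omega
  have hT3 : (∑ t ∈ T, GG (ss 1 t) ^ 2) * (3 * K) ≤ c₀ * ff Y := by
    have h0 : ∑ t ∈ T, GG (ss 1 t) ^ 2 ≤ C * g ^ 2 * H := by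
      rw [hT, Finset.sum_image (by simpa using hinj), Finset.sum_congr rfl (fun b _ => by rw [hss b]), hg]
      exact hsumC Q N H' H hQ0 hN1 hHH hH1 hNH2
    have h1 : (∑ t ∈ T, GG (ss 1 t) ^ 2) * (3 * K) ≤ C * g ^ 2 * H * (3 * K) :=
      mul_le_mul_of_nonneg_right h0 (by positivity)
    have h3 : C * g ^ 2 * H * (3 * K) = 3 * C * g ^ 2 * E * (G * K) := by rw [hHR]; ring
    have h4 : 3 * C * g ^ 2 * E * (G * K) ≤ 3 * C * g ^ 2 * E * (c * ff Z) :=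
      mul_le_mul_of_nonneg_left hJmK (by positivity)
    have h5 : 3 * C * g ^ 2 * E * (c * ff Z) ≤ 3 * C * g ^ 2 * E * (c * (16 * ff Y)) := by
      gcongr
    have h6 : 3 * C * g ^ 2 * E * (c * (16 * ff Y)) = c₀ * ff Y := by
      rw [hc]; field_simp; ring
    linarith
  -- the modulus `R = Q m`
  have hQm : (Q : ℝ) * m ≤ Y / 2 := by
    have h1 : (Q : ℝ) * m ≤ w / 4 * w := mul_le_mul (by linarith) hmw (by positivity) (by linarith)
    have h2 : w / 4 * w ≤ w ^ 4 / 4 := by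
      have e : w / 4 * w = w ^ 2 / 4 := by ring
      have : w ^ 2 ≤ w ^ 4 := pow_le_pow_right₀ e4 (by norm_num)
      linarith
    linarith
  have hQm0 : (0 : ℝ) < (Q : ℝ) * m := by positivity
  have hQmY : (Q : ℝ) * m * Y ≤ Z / 2 := by
    have := mul_le_mul_of_nonneg_right hQm (show (0 : ℝ) ≤ Y by linarith)
    linarith
  have hMm : Y ≤ M / ((Q : ℝ) * m) := by
    rw [le_div_iff₀ hQm0]
    linarith
  have hw2Y : w ^ 2 ≤ Y / 2 := by
    have h0 : (4 : ℝ) ^ 2 ≤ w ^ 2 := pow_le_pow_left₀ (by norm_num) hw4' 2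
    have h1 : 16 * w ^ 2 ≤ w ^ 2 * w ^ 2 := mul_le_mul_of_nonneg_right (by linarith) (by positivity)
    have h2 : w ^ 2 * w ^ 2 = w ^ 4 := by ring
    linarith
  obtain ⟨x, hx1, hx2, hx3, hx4⟩ := hmain Y ((le_max_left _ _).trans hY1) (M / ((Q : ℝ) * m)) hMm
    T 1 (3 * K) hne (by linarith) hT1 hT2 hT3
  have hnM : (((Q * m * x + h : ℕ) : ℝ)) ≤ M + Z := by
    push_cast
    have h1 : (Q : ℝ) * m * x ≤ Q * m * (M / ((Q : ℝ) * m) + Y) := mul_le_mul_of_nonneg_left hx2 hQm0.le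
    have h2 : (Q : ℝ) * m * (M / ((Q : ℝ) * m) + Y) = M + Q * m * Y := by field_simp
    have h3 : (0 : ℝ) ≤ w ^ 2 := by positivity
    linarith
  refine ⟨Q * m * x + h, ?_, hnM, ?_, ?_, fun i j hi hj1 hj2 q hq => ?_⟩
  · push_cast
    rw [div_lt_iff₀ hQm0] at hx1
    have : (0 : ℝ) ≤ h := by positivity
    linarith
  · have h1 : D ∣ Q * m * x + Q * l := by
      have hDQ : D ∣ Q := by rw [hQ]; exact Dvd.intro _ rfl
      exact dvd_add (Dvd.dvd.mul_right (Dvd.dvd.mul_right hDQ _) _) (Dvd.dvd.mul_right hDQ _)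
    have e : Q * m * x + h = m₀ + (Q * m * x + Q * l) := by rw [hh]; ring
    rw [e]
    have h2 : Q * m * x + Q * l ≡ 0 [MOD D] := (Nat.modEq_zero_iff_dvd).2 h1
    have h3 := Nat.ModEq.add_left m₀ h2
    rwa [add_zero] at h3
  · intro j hj
    have hlow : |rho (Q * m * x + (m₀ + Q * l) + j) - rho (m₀ + j)| ≤ (ε / 4 + ε / 4) + ε / 4 := by
      refine tot_part2 (J₀ := J₀) (t := t) (y := Real.log Y / 10) hm₀ (by omega) hQt b5 ?_ hx3
        (fun j hj => ?_) (fun j hj => ?_) j hj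
      · rw [← hh]
        have h1 : (h : ℝ) ≤ F * G := by
          refine hhG.trans (mul_le_mul_of_nonneg_right ?_ (by linarith))
          have : (0 : ℝ) ≤ E₁ := by positivity
          linarith
        linarith
      · refine (hk3 j hj).trans ?_
        linarith
      · apply b6
        · have : 0 < Q * m * x + (m₀ + Q * l) + j := by omega
          exact_mod_cast this
        · rw [← hh]
          have h1 : (j : ℝ) ≤ F := by
            have : (j : ℝ) ≤ J₀ := by exact_mod_cast hj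
            linarith
          push_cast at hnM ⊢
          linarith
    rw [← hh] at hlow
    linarith
  · have hb : |4 * i * (m : ℤ) + j| ≤ (H' : ℤ) := by
      have hi' := abs_le.1 hi
      have h1 : i * (m : ℤ) ≤ J * m := mul_le_mul_of_nonneg_right hi'.2 (by positivity)
      have h2 : -(J : ℤ) * m ≤ i * m := mul_le_mul_of_nonneg_right hi'.1 (by positivity)
      have h3 : (m : ℤ) ≤ J * m := le_mul_of_one_le_left (by positivity) (by exact_mod_cast hJ)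
      have h4 : (H' : ℤ) = 8 * (J * m) := by rw [hH']; push_cast; ring
      have h5 : 4 * i * (m : ℤ) = 4 * (i * m) := by ring
      rw [abs_le, h4, h5]
      constructor
      · linarith
      · linarith
    have hmem : ((4 * ((Q : ℤ) * m) ^ 2, (Q : ℤ) * (8 * m * h + (4 * i * (m : ℤ) + j))) : ℤ × ℤ) ∈ T := by
      rw [hT]
      exact Finset.mem_image_of_mem _ (Finset.mem_Icc.2 (abs_le.1 hb))
    have h1 := hx4 _ hmem q hq
    simp only at h1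
    push_cast at h1 ⊢
    have hiR : |(i : ℝ)| ≤ J := by exact_mod_cast hi
    have hj1R : (0 : ℝ) ≤ j := by exact_mod_cast hj1
    have hj2R : (j : ℝ) ≤ 4 * m := by exact_mod_cast hj2
    have hm0 : (0 : ℝ) < m := by linarith
    -- the constant term
    have h2 : |(2 * (h : ℝ) + i) ^ 2 + j * ((h : ℝ) / m)| ≤ K := by
      have g1 : (j : ℝ) * ((h : ℝ) / m) ≤ 4 * h := by
        have : (j : ℝ) * ((h : ℝ) / m) ≤ 4 * m * ((h : ℝ) / m) :=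
          mul_le_mul_of_nonneg_right hj2R (by positivity)
        have e : 4 * (m : ℝ) * ((h : ℝ) / m) = 4 * h := by field_simp
        linarith
      have g2 : (0 : ℝ) ≤ (j : ℝ) * ((h : ℝ) / m) := by positivity
      have g3 : |2 * (h : ℝ) + i| ≤ w ^ 2 / 2 := by
        refine (abs_add_le _ _).trans ?_
        rw [abs_of_nonneg (by positivity : (0 : ℝ) ≤ 2 * (h : ℝ))]
        have : 4 * w ≤ w * w := mul_le_mul_of_nonneg_right hw4' (by linarith)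
        have e : w * w = w ^ 2 := by ring
        linarith
      have g4 : (2 * (h : ℝ) + i) ^ 2 ≤ (w ^ 2 / 2) ^ 2 := by
        rw [← sq_abs]
        exact pow_le_pow_left₀ (abs_nonneg _) g3 2
      have g5 : 4 * (h : ℝ) ≤ w ^ 4 / 8 := by
        have : w ^ 2 ≤ w ^ 4 := pow_le_pow_right₀ e4 (by norm_num)
        linarith
      have g6 : (w ^ 2 / 2) ^ 2 = w ^ 4 / 4 := by ring
      have g7 : (0 : ℝ) ≤ w ^ 4 := by positivity
      rw [abs_of_nonneg (by positivity)]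
      linarith
    have h3 : (q : ℝ) - ((2 * ((Q : ℝ) * m * x + h) + i) ^ 2 + j * (((Q : ℝ) * m * x + h) / m)) =
        ((q : ℝ) - (4 * ((Q : ℝ) * m) ^ 2 * (x : ℝ) ^ 2 + Q * (8 * m * h + (4 * i * m + j)) * x)) -
          ((2 * (h : ℝ) + i) ^ 2 + j * ((h : ℝ) / m)) := by
      field_simp
      ring
    rw [h3]
    have h4 := abs_sub_abs_le_abs_sub ((q : ℝ) - (4 * ((Q : ℝ) * m) ^ 2 * (x : ℝ) ^ 2 +
      Q * (8 * m * h + (4 * i * m + j)) * x)) ((2 * (h : ℝ) + i) ^ 2 + j * ((h : ℝ) / m))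
    linarith

end Pool.Agent.K6.H26.PF
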