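import Pool.Agent.K6.H26.PF.Main
import Pool.Agent.K6.H26.PT.Unif

set_option autoImplicit false

/-! # Constants that do not depend on the pattern -/

namespace Pool.Agent.K6.H26.PF

open Finset Filter
open Pool.Agent.H256R2.SC (ff)
open Pool.Agent.K6.H26.PT
open scoped Classical

/-- the conclusion for one `m₀` -/
def Good (D m₀ J₀ : ℕ) (ε α c Z₀ : ℝ) : Prop :=
  ∀ Z : ℝ, Z₀ ≤ Z → ∀ M : ℝ, Z ≤ M → M ≤ Z ^ α →
    ∀ (J m : ℕ) (K : ℝ), 1 ≤ J → 1 ≤ m → Real.log Z ≤ K → (J : ℝ) * m * K ≤ c * ff Z →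
    ∃ k : ℕ, M < k ∧ (k : ℝ) ≤ M + Z ∧ k ≡ m₀ [MOD D] ∧
      (∀ j : ℕ, j ≤ J₀ → |rho (k + j) - rho (m₀ + j)| < ε) ∧
      ∀ i j : ℤ, |i| ≤ J → 0 ≤ j → j ≤ 4 * m → ∀ q : ℕ, q.Prime →
        K < |(q : ℝ) - ((2 * (k : ℝ) + i) ^ 2 + j * ((k : ℝ) / m))|

theorem good_exists (D m₀ J₀ : ℕ) (hD : 1 ≤ D) (hm₀ : 1 ≤ m₀) (ε α : ℝ) (hε : 0 < ε) :
    ∃ c : ℝ, 0 < c ∧ ∃ Z₀ : ℝ, Good D m₀ J₀ ε α c Z₀ := by
  obtain ⟨c, hc, Z₁, h⟩ := fan_main D m₀ J₀ hD hm₀ ε (max α 1) hε (le_max_right _ _)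
  refine ⟨c, hc, max Z₁ 1, fun Z hZ M hM hMα => ?_⟩
  have hZ1 : 1 ≤ Z := (le_max_right _ _).trans hZ
  have hMα' : M ≤ Z ^ (max α 1) :=
    hMα.trans (Real.rpow_le_rpow_of_exponent_le hZ1 (le_max_left _ _))
  exact h Z ((le_max_left _ _).trans hZ) M hM hMα'

theorem good_mono {D m₀ J₀ : ℕ} {ε α c Z₀ c' Z₀' : ℝ} (h : Good D m₀ J₀ ε α c Z₀) (hc' : 0 < c')
    (hc : c' ≤ c) (hZ : Z₀ ≤ Z₀') (hZ1 : 1 < Z₀') : Good D m₀ J₀ ε α c' Z₀' := by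
  intro Z hZZ M hM hMα J m K hJ hm hK hJmK
  refine h Z (hZ.trans hZZ) M hM hMα J m K hJ hm hK (hJmK.trans ?_)
  have hl : 0 < Real.log Z := Real.log_pos (lt_of_lt_of_le hZ1 hZZ)
  have hJ1 : (1 : ℝ) ≤ J := by exact_mod_cast hJ
  have hm1 : (1 : ℝ) ≤ m := by exact_mod_cast hm
  have hK0 : 0 < K := by linarith
  have h1 : 0 < c' * ff Z := lt_of_lt_of_le (by positivity) hJmK
  have h2 : 0 < ff Z := by
    by_contra hcon
    push Not at hcon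
    have := mul_nonpos_of_nonneg_of_nonpos hc'.le hcon
    linarith
  exact mul_le_mul_of_nonneg_right hc h2.le

theorem good_near {D m₀ m' J₀ : ℕ} {ε α c Z₀ : ℝ} (h : Good D m' J₀ (ε / 2) α c Z₀)
    (hmm : m' ≡ m₀ [MOD D]) (hρ : ∀ j : ℕ, j ≤ J₀ → |rho (m' + j) - rho (m₀ + j)| ≤ ε / 2) :
    Good D m₀ J₀ ε α c Z₀ := by
  intro Z hZ M hM hMα J m K hJ hm hK hJmK
  obtain ⟨n, h1, h2, h3, h4, h5⟩ := h Z hZ M hM hMα J m K hJ hm hK hJmK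
  refine ⟨n, h1, h2, h3.trans hmm, fun j hj => ?_, h5⟩
  have e1 := h4 j hj
  have e2 := hρ j hj
  have e3 := abs_sub_le (rho (n + j)) (rho (m' + j)) (rho (m₀ + j))
  linarith

/-- the constants can be taken the same for all `m₀` -/
theorem good_uniform (D J₀ : ℕ) (hD : 1 ≤ D) (ε α : ℝ) (hε : 0 < ε) :
    ∃ c : ℝ, 0 < c ∧ ∃ Z₀ : ℝ, ∀ m : ℕ, 1 ≤ m → Good D m J₀ ε α c Z₀ := by
  obtain ⟨N, hN⟩ : ∃ N : ℕ, N = ⌈2 / ε⌉₊ + 1 := ⟨_, rfl⟩
  have hN0 : (0 : ℝ) < N := by rw [hN]; positivity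
  have hNε : 1 / (N : ℝ) ≤ ε / 2 := by
    have h1 : 2 / ε ≤ N := by
      refine (Nat.le_ceil _).trans ?_
      rw [hN]; push_cast; linarith
    rw [div_le_iff₀ hε] at h1
    rw [div_le_iff₀ hN0]
    linarith
  have hfl : ∀ n : ℕ, ⌊rho n * N⌋₊ < N + 1 := by
    intro n
    rw [Nat.floor_lt (by have := rho_nonneg n; positivity)]
    have h1 : rho n * N ≤ 1 * N := mul_le_mul_of_nonneg_right (rho_le_one n) hN0.le
    push_cast
    linarith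
  obtain ⟨key, hkey⟩ : ∃ key : ℕ → Fin D × (Fin (J₀ + 1) → Fin (N + 1)),
      key = fun m => (⟨m % D, Nat.mod_lt m hD⟩, fun j => ⟨⌊rho (m + j) * N⌋₊, hfl _⟩) := ⟨_, rfl⟩
  have hP : ∀ v : Fin D × (Fin (J₀ + 1) → Fin (N + 1)), ∃ c : ℝ, 0 < c ∧ ∃ Z₀ : ℝ,
      ∀ m : ℕ, 1 ≤ m → key m = v → Good D m J₀ ε α c Z₀ := by
    intro v
    by_cases hex : ∃ m₀ : ℕ, 1 ≤ m₀ ∧ key m₀ = v
    · obtain ⟨m₀, hm₀, hv⟩ := hex
      obtain ⟨c, hc, Z₀, h⟩ := good_exists D m₀ J₀ hD hm₀ (ε / 2) α (by positivity)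
      refine ⟨c, hc, Z₀, fun m _ hmv => good_near h ?_ ?_⟩
      · rw [← hmv, hkey] at hv
        have h1 := congrArg (fun t => (t.1 : Fin D).val) hv
        exact h1
      · intro j hj
        rw [← hmv, hkey] at hv
        have h1 := congrArg (fun t => (t.2 ⟨j, by omega⟩ : Fin (N + 1)).val) hv
        simp only at h1
        have a1 := Nat.floor_le (show 0 ≤ rho (m₀ + j) * N by have := rho_nonneg (m₀ + j); positivity)
        have a2 := Nat.lt_floor_add_one (rho (m₀ + j) * N)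
        have b1 := Nat.floor_le (show 0 ≤ rho (m + j) * N by have := rho_nonneg (m + j); positivity)
        have b2 := Nat.lt_floor_add_one (rho (m + j) * N)
        rw [h1] at a1 a2
        have h2 : |rho (m₀ + j) - rho (m + j)| * N ≤ 1 := by
          have h4 : |rho (m₀ + j) - rho (m + j)| * N = |(rho (m₀ + j) - rho (m + j)) * N| := by
            rw [abs_mul, abs_of_pos hN0]
          rw [h4, abs_le]
          constructor
          · linarith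
          · linarith
        have h3 : |rho (m₀ + j) - rho (m + j)| ≤ 1 / N := by
          rw [le_div_iff₀ hN0]
          exact h2
        exact h3.trans hNε
    · exact ⟨1, one_pos, 0, fun m hm hmv => absurd ⟨m, hm, hmv⟩ hex⟩
  choose c hc Z₀ hZ₀ using hP
  have hne : (Finset.univ : Finset (Fin D × (Fin (J₀ + 1) → Fin (N + 1)))).Nonempty :=
    ⟨key 1, Finset.mem_univ _⟩
  obtain ⟨v₀, _, hv₀⟩ := Finset.exists_min_image Finset.univ c hne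
  obtain ⟨v₁, _, hv₁⟩ := Finset.exists_max_image Finset.univ Z₀ hne
  refine ⟨c v₀, hc v₀, max (Z₀ v₁) 2, fun m hm => ?_⟩
  exact good_mono (hZ₀ (key m) m hm rfl) (hc v₀) (hv₀ _ (Finset.mem_univ _))
    ((hv₁ _ (Finset.mem_univ _)).trans (le_max_left _ _)) (lt_of_lt_of_le (by norm_num) (le_max_right _ _))

end Pool.Agent.K6.H26.PF
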